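import Mathlib
import Pool.Agent.X329.Fpp.Lim

/-!
# Every number in `[0, 1]` is the fixed-point proportion of a group acting on the `d`-regular tree

Let `G ≤ Aut T` have fixed-point proportion `f`. Let the cyclic group `C` of order `d` rotate the
letters. The group `C × G` in which `C` acts on the first letter and `G` acts on the remaining word
has fixed-point proportion `f / d`. The group `C × G` in which `G` acts on the subtree at the letter
`0` and `C` acts on the second letter of the words with another first letter has fixed-point
proportion `1 / d + (1 - 1 / d) f`. The images of `[0, 1]` under the two maps cover `[0, 1]`, and an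
infinite iteration of the two constructions, along the itinerary of `α`, gives a group with
fixed-point proportion `α`.
-/

set_option autoImplicit false

namespace Pool.Agent.Results.MP_80cb54_al.EveryValue

open Pool.Agent.X329.Fpp

/-- For every `d ≥ 2` and every `α ∈ [0, 1]` there is a subgroup `G` of `Aut T`, which can be chosen
to be abelian, such that the proportion of the elements of `G_n` with a fixed vertex on the level
`L_n` tends to `α`. -/
theorem result (d : ℕ) (hd : 2 ≤ d) (α : ℝ) (h0 : 0 ≤ α) (h1 : α ≤ 1) :
    ∃ G : Subgroup (AutT d), (∀ g ∈ G, ∀ h ∈ G, g * h = h * g) ∧ HasFPP G α := by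
  have : NeZero d := ⟨by omega⟩
  refine ⟨GG (itin d α), ?_, hasFPP hd α h0 h1⟩
  rintro _ ⟨c, rfl⟩ _ ⟨c', rfl⟩
  rw [← map_mul, ← map_mul, mul_comm]

end Pool.Agent.Results.MP_80cb54_al.EveryValue
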